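import Pool.Agent.Lib.H30F.SD
import Pool.Agent.Lib.H63F.F1

/-!
# H57F, file S: a poset of sets is empty or acyclic under a covering condition (plane 2-factors, MP_33911d)
-/

set_option autoImplicit false

namespace H57F

open Finset H98P H63F H30F

variable {V : Type*} [Fintype V] [DecidableEq V]

/-- `P` on the subsets of `W`: the ideals `P(W - r)`, `r ∈ R`, and their intersections are acyclic; then so is
their union. -/
private theorem union_ac {P : Finset V → Prop} {W : Finset V} (R : Finset V) (hR : R.Nonempty) :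
    ∀ Q : Finset V, (∀ Q', Q ⊆ Q' → Q' ⊆ Q ∪ R → (∃ r ∈ R, r ∈ Q') →
      AC (Ch fun T : Finset V => T ⊆ W \ Q' ∧ P T)) →
      AC fun c : Finset (Finset V) => ∃ r ∈ R, Ch (fun T : Finset V => T ⊆ W \ insert r Q ∧ P T) c := by
  induction R using Finset.induction_on with
  | empty => exact absurd hR not_nonempty_empty
  | insert a R ha ih =>
    intro Q h
    by_cases hn : R.Nonempty
    · have h1 : AC (Ch fun T : Finset V => T ⊆ W \ insert a Q ∧ P T) :=
        h (insert a Q) (subset_insert _ _) (by
          intro x hx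
          rcases mem_insert.1 hx with rfl | hx
          · exact mem_union_right _ (mem_insert_self _ _)
          · exact mem_union_left _ hx) ⟨a, mem_insert_self _ _, mem_insert_self _ _⟩
      have h2 := ih hn Q (fun Q' h3 h4 ⟨r, hr, h5⟩ => h Q' h3
        (h4.trans (union_subset_union_right (subset_insert _ _))) ⟨r, mem_insert_of_mem hr, h5⟩)
      have h3 := ih hn (insert a Q) (fun Q' h3 h4 ⟨r, hr, h5⟩ => h Q' ((subset_insert _ _).trans h3)
        (h4.trans (by
          intro x hx
          rcases mem_union.1 hx with hx | hx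
          · rcases mem_insert.1 hx with rfl | hx
            · exact mem_union_right _ (mem_insert_self _ _)
            · exact mem_union_left _ hx
          · exact mem_union_right _ (mem_insert_of_mem hx))) ⟨r, mem_insert_of_mem hr, h5⟩)
      have dn : ∀ Q' : Finset V, Dn (Ch fun T : Finset V => T ⊆ W \ Q' ∧ P T) := fun _ => ch_dn
      refine ac_congr (K := fun c => Ch (fun T : Finset V => T ⊆ W \ insert a Q ∧ P T) c ∨
        ∃ r ∈ R, Ch (fun T : Finset V => T ⊆ W \ insert r Q ∧ P T) c) (fun c => ?_)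
        (ac_union (dn _) (fun s t hst ⟨r, hr, h4⟩ => ⟨r, hr, dn _ _ _ hst h4⟩) h1 h2
          (ac_congr (fun c => ?_) h3))
      · constructor
        · rintro (h4 | ⟨r, hr, h4⟩)
          · exact ⟨a, mem_insert_self _ _, h4⟩
          · exact ⟨r, mem_insert_of_mem hr, h4⟩
        · rintro ⟨r, hr, h4⟩
          rcases mem_insert.1 hr with rfl | hr
          · exact Or.inl h4
          · exact Or.inr ⟨r, hr, h4⟩
      · constructor
        · rintro ⟨r, hr, h4⟩
          refine ⟨ch_mono (fun T hT => ⟨hT.1.trans (sdiff_subset_sdiff Subset.rfl (subset_insert _ _)), hT.2⟩) h4,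
            r, hr, ch_mono (fun T hT => ⟨hT.1.trans (sdiff_subset_sdiff Subset.rfl
              (insert_subset_insert _ (subset_insert _ _))), hT.2⟩) h4⟩
        · rintro ⟨h4, r, hr, h5⟩
          refine ⟨r, hr, fun T hT => ⟨fun x hx => ?_, (h4.1 T hT).2⟩, h4.2⟩
          have h6 := mem_sdiff.1 ((h4.1 T hT).1 hx)
          have h7 := mem_sdiff.1 ((h5.1 T hT).1 hx)
          refine mem_sdiff.2 ⟨h6.1, fun h8 => ?_⟩
          rcases mem_insert.1 h8 with h9 | h9
          · exact h7.2 (h9 ▸ mem_insert_self _ _)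
          · exact h6.2 h9
    · rw [not_nonempty_iff_eq_empty] at hn
      subst hn
      refine ac_congr (K := Ch fun T : Finset V => T ⊆ W \ insert a Q ∧ P T) (fun c => ?_)
        (h (insert a Q) (subset_insert _ _) (by
          intro x hx
          rcases mem_insert.1 hx with rfl | hx
          · exact mem_union_right _ (mem_insert_self _ _)
          · exact mem_union_left _ hx) ⟨a, mem_insert_self _ _, mem_insert_self _ _⟩)
      constructor
      · exact fun h4 => ⟨a, mem_insert_self _ _, h4⟩
      · rintro ⟨r, hr, h4⟩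
        rcases mem_insert.1 hr with rfl | hr
        · exact h4
        · exact absurd hr (notMem_empty _)

/-- COVERING CONDITION: if `W` is not in `P` but contains a member of `P`, then there is a nonempty `R ⊆ W` which is
contained in no member of `P` inside `W`, while `W - R` contains a member of `P`. Then the poset of the members of `P`
inside `W` is empty or acyclic. -/
theorem ac_ideal {P : Finset V → Prop}
    (hP : ∀ W, ¬ P W → (∃ T ⊆ W, P T) → ∃ R ⊆ W, R.Nonempty ∧ (∃ T ⊆ W \ R, P T) ∧ ∀ T ⊆ W, P T → ¬ R ⊆ T) :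
    ∀ W : Finset V, (∃ T ⊆ W, P T) → AC (Ch fun T : Finset V => T ⊆ W ∧ P T) := by
  intro W
  induction h : W.card using Nat.strong_induction_on generalizing W with
  | _ n ih =>
  intro hW
  by_cases hPW : P W
  · exact ac_ch_cone (a := W) ⟨Subset.rfl, hPW⟩ fun T hT => Or.inr hT.1
  obtain ⟨R, hRW, hR, ⟨T₁, hT₁, hPT⟩, hmiss⟩ := hP W hPW hW
  have key := union_ac (P := P) (W := W) R hR ∅ (fun Q' _ hQ' ⟨r, hr, hrQ⟩ => by
    refine ih (W \ Q').card ?_ (W \ Q') rfl ⟨T₁, hT₁.trans (sdiff_subset_sdiff Subset.rfl ?_), hPT⟩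
    · rw [← h]
      exact card_lt_card ⟨sdiff_subset, fun hs => (mem_sdiff.1 (hs (hRW hr))).2 hrQ⟩
    · simpa using hQ')
  refine ac_congr (fun c => ?_) key
  constructor
  · rintro ⟨r, hr, h1⟩
    exact ch_mono (fun T hT => ⟨hT.1.trans sdiff_subset, hT.2⟩) h1
  · intro hc
    by_cases hn : c.Nonempty
    · obtain ⟨m, hm, hmax⟩ := ch_max hc hn
      obtain ⟨r, hr, hrm⟩ := not_subset.1 (hmiss m (hc.1 m hm).1 (hc.1 m hm).2)
      refine ⟨r, hr, fun T hT => ⟨fun x hx => mem_sdiff.2 ⟨(hc.1 T hT).1 hx, fun h2 => ?_⟩, (hc.1 T hT).2⟩, hc.2⟩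
      rcases mem_insert.1 h2 with h2 | h2
      · exact hrm (h2 ▸ hmax T hT hx)
      · exact notMem_empty _ h2
    · rw [not_nonempty_iff_eq_empty] at hn
      subst hn
      obtain ⟨r, hr⟩ := hR
      exact ⟨r, hr, ch_empty _⟩

end H57F
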