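import Pool.Agent.Lib.H89TF.A
import Pool.Agent.Lib.H57F.S
import Pool.Agent.Lib.H85TF.P1

/-!
# H57F, file R1: the proper uncoverable subsets of a set which is neither coverable nor critical
-/

set_option autoImplicit false
set_option linter.unusedSectionVars false

namespace H57F

open Finset H98P H63F H30F

section poset

variable {α : Type*} [PartialOrder α] [Fintype α] [DecidableEq α]

/-- FIBRES (Quillen), the converse of `H96TF.ac_fib`: `P` is a part of `Q`, `P` is acyclic and all the parts of `P`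
below an element of `Q` are acyclic; then `Q` is acyclic. -/
theorem ac_fib_up {P Q : α → Prop} (hPQ : ∀ x, P x → Q x)
    (hf : ∀ y, Q y → AC (Ch fun x => P x ∧ x ≤ y)) (hP : AC (Ch P)) : AC (Ch Q) := by
  refine ac_transfer (Ch Q) (Ch P) ch_dn ch_dn (ch_empty Q) (ch_empty P)
    (fun s r => ∃ M ∈ s, Ch (fun x => P x ∧ x ≤ M) r) (fun t r => r ⊆ t)
    (fun s r => ∃ M ∈ s, Ch (fun x => Q x ∧ x ≤ M) r)
    ?_ ?_ ?_ ?_ ?_ ?_ ?_ ?_ ?_ ?_ ?_ ?_ ?_ hP
  · rintro s t hst _ _ r ⟨M, hM, h⟩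
    exact ⟨M, hst hM, h⟩
  · rintro s _ ⟨M, hM⟩
    exact ⟨M, hM, ch_empty _⟩
  · intro s hs hn
    obtain ⟨M, hM, h⟩ := ch_max hs hn
    refine ac_congr (K := Ch fun x => P x ∧ x ≤ M) (fun r => ?_) (hf M (hs.1 M hM))
    exact ⟨fun h1 => ⟨M, hM, h1⟩,
      fun ⟨M', hM', h1⟩ => ch_mono (fun x hx => ⟨hx.1, hx.2.trans (h M' hM')⟩) h1⟩
  · rintro s _ _ r ⟨M, _, h⟩
    exact ch_mono (fun x hx => hx.1) h
  · exact fun s t hst _ _ r hr => hr.trans hst
  · exact fun s _ _ => empty_subset _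
  · exact fun s _ hn => ac_simplex hn
  · exact fun s hs _ r hr => ch_mono hPQ (ch_dn _ _ hr hs)
  · rintro s t hst _ _ r ⟨M, hM, h⟩
    exact ⟨M, hst hM, h⟩
  · intro s hs hn
    obtain ⟨M, hM, h⟩ := ch_max hs hn
    exact ⟨M, hM, fun x hx => ⟨hs.1 x hx, h x hx⟩, hs.2⟩
  · intro s hs hn
    obtain ⟨M, hM, h⟩ := ch_max hs hn
    refine ac_congr (K := Ch fun x => Q x ∧ x ≤ M) (fun r => ?_)
      (ac_ch_cone (a := M) ⟨hs.1 M hM, le_refl M⟩ fun x hx => Or.inr hx.2)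
    exact ⟨fun h1 => ⟨M, hM, h1⟩,
      fun ⟨M', hM', h1⟩ => ch_mono (fun x hx => ⟨hx.1, hx.2.trans (h M' hM')⟩) h1⟩
  · rintro s _ _ r ⟨M, _, h⟩
    exact ch_mono (fun x hx => hx.1) h
  · rintro s t r _ _ ⟨M, hM, h⟩ _ h3
    exact ⟨M, hM, ch_mono (fun x hx => ⟨hPQ x hx.1, hx.2⟩) (ch_dn _ _ h3 h)⟩

end poset

variable {V : Type*} [Fintype V] [DecidableEq V]

/-- The critical subsets of `W` form an acyclic poset, or there are none. -/
theorem ac_TG_below {G : Finset (Sym2 V)} (hl : ∀ v, s(v, v) ∉ G) (W : Finset V) (h : ∃ T ⊆ W, H89TF.TG G T) :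
    AC (Ch fun T : Finset V => T ⊆ W ∧ H89TF.TG G T) := by
  refine ac_ideal (P := H89TF.TG G) ?_ W h
  intro W hW hex
  obtain ⟨T1, h1, h2, h3⟩ := H89TF.Rp hl hW hex
  refine ⟨W \ T1, sdiff_subset, ?_, ⟨T1, ?_, h2⟩, ?_⟩
  · obtain ⟨r, hr, -⟩ := h3 T1 h1 h2
    exact ⟨r, hr⟩
  · exact fun x hx => mem_sdiff.2 ⟨h1 hx, fun h4 => (mem_sdiff.1 h4).2 hx⟩
  · intro T' hT' hT'2 hsub
    obtain ⟨r, hr, hrT⟩ := h3 T' hT' hT'2
    exact hrT (hsub hr)

/-- (R1): if `M` is neither coverable nor critical, the proper subsets of `M` which are not coverable form an acyclic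
poset. -/
theorem ac_unc {G : Finset (Sym2 V)} (hl : ∀ v, s(v, v) ∉ G) {M : Finset V} (hM : ¬ H89TF.Cv G M)
    (hT : ¬ H89TF.TG G M) : AC (Ch fun W : Finset V => W ⊂ M ∧ ¬ H89TF.Cv G W) := by
  refine ac_fib_up (P := fun T => T ⊆ M ∧ H89TF.TG G T) ?_ ?_ (ac_TG_below hl M (H89TF.B hl _ M rfl hM))
  · rintro T ⟨h1, h2⟩
    refine ⟨Finset.ssubset_iff_subset_ne.2 ⟨h1, fun e => hT (e ▸ h2)⟩, H89TF.TG_not_cv Subset.rfl h2⟩
  · rintro W ⟨h1, h2⟩
    refine ac_congr (fun c => ?_) (ac_TG_below hl W (H89TF.B hl _ W rfl h2))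
    constructor
    · exact ch_mono fun T hT => ⟨⟨hT.1.trans h1.1, hT.2⟩, hT.1⟩
    · exact ch_mono fun T hT => ⟨hT.2, hT.1.2⟩

theorem cv_iff {G : Finset (Sym2 V)} {W : Finset V} : H89TF.Cv G W ↔ H85TF.Cov G W := by
  have h0 : ∀ (F : Finset (Sym2 V)) (v : V), H89TF.dg F v = (H85TF.dg F v : ℤ) := fun F v => rfl
  constructor
  · rintro ⟨F, h1, h2, h3⟩
    refine ⟨F, h1, fun v => ?_, fun v hv => ?_⟩
    · rcases h2 v with h | h
      · left
        rw [h0] at h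
        exact_mod_cast h
      · right
        rw [h0] at h
        exact_mod_cast h
    · have h := h3 v hv
      rw [h0] at h
      exact_mod_cast h
  · rintro ⟨F, h1, h2, h3⟩
    refine ⟨F, h1, fun v => ?_, fun v hv => ?_⟩
    · rw [h0]
      rcases h2 v with h | h
      · left
        exact_mod_cast h
      · right
        exact_mod_cast h
    · rw [h0]
      exact_mod_cast h3 v hv

/-- (R1) for `H85TF.Cov`. -/
theorem ac_unc' {G : Finset (Sym2 V)} (hl : ∀ v, s(v, v) ∉ G) {M : Finset V} (hM : ¬ H85TF.Cov G M)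
    (hT : ¬ H89TF.TG G M) : AC (Ch fun W : Finset V => W ⊂ M ∧ ¬ H85TF.Cov G W) := by
  have h := ac_unc hl (fun h => hM (cv_iff.1 h)) hT
  simpa only [cv_iff] using h

end H57F
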